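import Pool.Agent.MP_645085_gt.LF

/-!
Every non-separable metrizable topological vector space has the countable locally finite
approximation property.
-/

namespace Pool.Agent.Results.MP_645085_gt.OmegaLFAP

open Set TopologicalSpace

/-- The countable locally finite approximation property: for every open cover `U` there is a
sequence of continuous self-maps, each `U`-near to the identity, whose images form a locally finite
family. -/
def HasOmegaLFAP (X : Type*) [TopologicalSpace X] : Prop :=
  ∀ U : Set (Set X), (∀ u ∈ U, IsOpen u) → ⋃₀ U = univ →
    ∃ f : ℕ → C(X, X), (∀ n x, ∃ u ∈ U, x ∈ u ∧ f n x ∈ u) ∧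
      LocallyFinite fun n => range (f n)

/-- Every non-separable metrizable real topological vector space has the countable locally finite
approximation property. -/
theorem result (E : Type*) [AddCommGroup E] [Module ℝ E] [TopologicalSpace E]
    [IsTopologicalAddGroup E] [ContinuousSMul ℝ E] [MetrizableSpace E]
    (hE : ¬ SeparableSpace E) : HasOmegaLFAP E :=
  fun U hU hcov => Pool.Agent.MP_645085_gt.lfap hE U hU hcov

end Pool.Agent.Results.MP_645085_gt.OmegaLFAP
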